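import Pool.Agent.Y309.RS.NonRad

set_option autoImplicit false

namespace Pool.Agent.Results.MP_ad2fa1_an.NonradialSolutions

open MeasureTheory Filter Topology Set Laplacian InnerProductSpace

/-- The Euclidean plane. -/
abbrev Plane : Type := EuclideanSpace ℝ (Fin 2)

/-- `G₀(u) = ∫_{-∞}^u g` -/
noncomputable def G0 (g : ℝ → ℝ) (u : ℝ) : ℝ := ∫ s in Iic u, g s

/-- the set of all `M > 0` with `∫_0^∞ f(t) g(-M t) dt < ∞` -/
def admissibleM (f g : ℝ → ℝ) : Set ℝ :=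
  {M : ℝ | 0 < M ∧ IntegrableOn (fun t => f t * g (-M * t)) (Ioi 0)}

/-- the hypotheses (H1)-(H8) -/
structure Hypotheses (f g : ℝ → ℝ) : Prop where
  H1 : ContDiff ℝ 1 f ∧ ContDiff ℝ 1 g ∧ IntegrableOn (fun t => |t * f t|) (Iio 0) ∧
    ∃ C : ℝ, ∀ u, |g u| + |deriv g u| ≤ C
  H2 : (∀ t, 0 < f t) ∧ Tendsto f atTop atTop ∧ g 0 = 0 ∧ ∀ u < 0, 0 < g u
  H3 : ∀ t, 0 ≤ deriv f t
  H4 : ∃ M ∈ admissibleM f g, ∀ u < -M, 0 < deriv g u
  H5 : ¬ IntegrableOn (fun t => f t * g (-(sInf (admissibleM f g)) * t)) (Ioi 0) ∧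
    ∀ c > 0, ∃ m > 0, ∀ t > 0, m ≤ f (t - c) / f t
  H6_H7 : IntegrableOn g (Iic 0) ∧ ∃ f₁ g₁ : ℝ,
    Tendsto (fun t => deriv f t / f t) atTop (𝓝 f₁) ∧
    Tendsto (fun u => G0 g u / g u) atBot (𝓝 g₁) ∧
    (∀ t, f₁ ≤ deriv f t / f t) ∧ ∀ u < 0, g₁ ≤ G0 g u / g u
  H8 : ∃ δ > 0, ∀ u ∈ Icc (-δ) 0, deriv g u ≤ 0

/-- `u` is a negative solution of `Δ u + p(|x|) q(e^u) = 4 π N δ` on the plane: it is locally
integrable, smooth and negative off the origin, and the equation holds in the sense of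
distributions. -/
structure IsNegativeSolution (N : ℝ) (p q : ℝ → ℝ) (u : Plane → ℝ) : Prop where
  locallyIntegrable : LocallyIntegrable u
  locallyIntegrable_source : LocallyIntegrable (fun x => p ‖x‖ * q (Real.exp (u x)))
  smooth : ContDiffOn ℝ ((⊤ : ℕ∞) : WithTop ℕ∞) u {x | x ≠ 0}
  distributional : ∀ φ : Plane → ℝ, ContDiff ℝ ((⊤ : ℕ∞) : WithTop ℕ∞) φ → HasCompactSupport φ →
    (∫ x, u x * Δ φ x) + ∫ x, p ‖x‖ * q (Real.exp (u x)) * φ x = 4 * Real.pi * N * φ 0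
  negative : ∀ x, x ≠ 0 → u x < 0

/-- There is one function `q` such that, for every real `N ≥ 0` and every integer `m ≥ 2` with
`m > N`, there is a constant `C > 0` for which `q` and `p(r) = C r^(2(m-N)-2)` satisfy (H1)-(H8)
and the equation has a negative solution of finite total mass which is not radially symmetric
about the origin, nor about any other point. (If `N ≥ 1` is an integer and `m = N + 1`, then `p`
is constant.) -/
theorem result : ∃ q : ℝ → ℝ, ∀ (N : ℝ) (m : ℕ), 0 ≤ N → N < m → 2 ≤ m →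
    ∃ C : ℝ, 0 < C ∧
      Hypotheses (fun t => Real.exp (2 * t) * (C * Real.exp t ^ (2 * ((m : ℝ) - N) - 2)))
        (fun u => q (Real.exp u)) ∧
      ∃ u : Plane → ℝ, IsNegativeSolution N (fun r => C * r ^ (2 * ((m : ℝ) - N) - 2)) q u ∧
        Integrable (fun x : Plane => C * ‖x‖ ^ (2 * ((m : ℝ) - N) - 2) * q (Real.exp (u x))) ∧
        ∀ a : Plane, ¬ ∃ Φ : ℝ → ℝ, ∀ x, x ≠ 0 → u x = Φ ‖x - a‖ := by
  refine ⟨fun s => Pool.Agent.Y309.RS.gg (Real.log s), fun N m hN hm hm2 => ?_⟩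
  have hm0 : (0 : ℝ) < m := by
    have : 0 < m := by omega
    exact_mod_cast this
  have hC : 0 < Pool.Agent.Y309.RS.CC m := by
    unfold Pool.Agent.Y309.RS.CC
    positivity
  have hk : 0 < 2 * ((m : ℝ) - N) := by linarith
  have hf : (fun t : ℝ => Real.exp (2 * t) *
      (Pool.Agent.Y309.RS.CC m * Real.exp t ^ (2 * ((m : ℝ) - N) - 2))) =
      Pool.Agent.Y309.RS.ff (Pool.Agent.Y309.RS.CC m) (2 * ((m : ℝ) - N)) := by
    funext t
    unfold Pool.Agent.Y309.RS.ff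
    rw [← Real.exp_mul, mul_left_comm, ← Real.exp_add]
    congr 2
    ring
  have hg : (fun u : ℝ => Pool.Agent.Y309.RS.gg (Real.log (Real.exp u))) =
      Pool.Agent.Y309.RS.gg := by
    funext u
    rw [Real.log_exp]
  refine ⟨Pool.Agent.Y309.RS.CC m, hC, ?_, Pool.Agent.Y309.RS.U N m, ?_, ?_,
    fun a => Pool.Agent.Y309.RS.not_radial hN hm2 a⟩
  · rw [hf, hg]
    have hset : sInf (admissibleM (Pool.Agent.Y309.RS.ff (Pool.Agent.Y309.RS.CC m)
        (2 * ((m : ℝ) - N))) Pool.Agent.Y309.RS.gg) = 2 * ((m : ℝ) - N) :=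
      Pool.Agent.Y309.RS.sInf_eq hC hk
    constructor
    · exact ⟨Pool.Agent.Y309.RS.contDiff_ff _ _, Pool.Agent.Y309.RS.contDiff_gg,
        Pool.Agent.Y309.RS.h1_int hC hk, 40, fun u => by
          rw [Pool.Agent.Y309.RS.deriv_gg]; exact Pool.Agent.Y309.RS.gg_bdd u⟩
    · exact ⟨Pool.Agent.Y309.RS.ff_pos hC _, Pool.Agent.Y309.RS.tendsto_ff hC hk,
        Pool.Agent.Y309.RS.gg_zero, fun u hu => Pool.Agent.Y309.RS.gg_pos hu⟩
    · intro t
      rw [Pool.Agent.Y309.RS.deriv_ff]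
      exact mul_nonneg hk.le (Pool.Agent.Y309.RS.ff_pos hC _ t).le
    · refine ⟨2 * ((m : ℝ) - N) + 1, ⟨by linarith,
        Pool.Agent.Y309.RS.int_of_gt hC hk (by linarith)⟩, fun u hu => ?_⟩
      rw [Pool.Agent.Y309.RS.deriv_gg, Pool.Agent.Y309.RS.gg'_of_le (by linarith)]
      exact Real.exp_pos u
    · rw [hset]
      refine ⟨Pool.Agent.Y309.RS.not_int_of_le hC hk hk le_rfl, fun c _ =>
        ⟨Real.exp (-(2 * ((m : ℝ) - N) * c)), Real.exp_pos _, fun t _ => le_of_eq ?_⟩⟩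
      rw [eq_div_iff (Pool.Agent.Y309.RS.ff_pos hC _ t).ne']
      unfold Pool.Agent.Y309.RS.ff
      rw [mul_left_comm, ← Real.exp_add]
      congr 2
      ring
    · refine ⟨Pool.Agent.Y309.RS.gg_intOn 0 le_rfl, 2 * ((m : ℝ) - N), 1, ?_,
        Pool.Agent.Y309.RS.tendsto_G1, ?_, fun u hu => Pool.Agent.Y309.RS.one_le_G1 hu⟩
      · refine tendsto_const_nhds.congr fun t => ?_
        rw [Pool.Agent.Y309.RS.deriv_ff,
          mul_div_cancel_right₀ _ (Pool.Agent.Y309.RS.ff_pos hC _ t).ne']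
      · intro t
        rw [Pool.Agent.Y309.RS.deriv_ff,
          mul_div_cancel_right₀ _ (Pool.Agent.Y309.RS.ff_pos hC _ t).ne']
    · refine ⟨1 / 2, by norm_num, fun u hu => ?_⟩
      rw [Pool.Agent.Y309.RS.deriv_gg]
      exact Pool.Agent.Y309.RS.gg'_nonpos hu.1 hu.2
  · constructor
    · exact Pool.Agent.Y309.RS.U_locInt N m
    · simp only [Real.log_exp]
      exact Pool.Agent.Y309.RS.source_locInt hN (by omega) hm
    · exact Pool.Agent.Y309.RS.U_smooth N m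
    · intro φ hφ hc
      simp only [Real.log_exp]
      exact Pool.Agent.Y309.RS.dist_eq hN (by omega) hm
        (by exact_mod_cast contDiff_infty.1 hφ 2) hc
    · intro x hx
      have := Pool.Agent.Y309.RS.U_le hN hm hx
      linarith
  · simp only [Real.log_exp]
    exact Pool.Agent.Y309.RS.source_integrable hN hm2 hm

end Pool.Agent.Results.MP_ad2fa1_an.NonradialSolutions
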